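import Pool.Agent.Helper91.CM.Ind

/-!
# Complex manifolds without pluricanonical forms carry a canonical foliation without tensors

Let `X` be a connected complex manifold of dimension `n ≥ 1`, for instance a compact Kähler manifold
or a compact manifold in class `𝓒`.  It need not be algebraic, nor Moishezon, nor compact.

**Theorem.**  Suppose that `X` has no nonzero holomorphic pluricanonical forms, that is, all sections
of the powers `K_X ^ m`, `m > 0`, vanish.  Then there are a connected dense open subset `M` of `X`,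
such that all holomorphic functions extend over the complement of `M` (as for the complement of an
analytic subset of codimension at least two), and a holomorphic foliation `𝓕 ≠ 0` on `M` (an involutive
holomorphic subbundle of the tangent bundle), such that `M` and `𝓕` are invariant under all
automorphisms of `X` and all holomorphic tensors on `𝓕`, the sections over `M` of
`(𝓕 *) ^ ⊗ N`, `N > 0`, of any symmetry, vanish.

So if nonvanishing fails for `X` then `X` carries a canonical foliation with the vanishing of tensors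
which Mumford's conjecture characterises (for a projective manifold and its tangent bundle) by rational
connectedness.

There are no meromorphic functions to work with here.  The proof: the invariants of the group `SL n`
of a family of tensors on a distribution are pluricanonical forms of the distribution, so they vanish;
hence the family is destabilised (Hilbert and Mumford) at the generic point of each coordinate ball,
over the quotient field of the ring of holomorphic functions, and by the uniqueness of the optimal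
weighted flag (Kempf) the flags on all balls have the same weights and fit together to a flag of
distributions outside of a small set (removable singularities: circle integrals which depend on
parameters, and the extension of subbundles by Plücker coordinates).  The leading parts of the tensors
have a nonzero invariant (Kempf, Ramanan and Ramanathan); multiplied with pluricanonical forms of the
proper members of the flag it is a pluricanonical form of the distribution.  So one of the proper
members has no pluricanonical forms, and after finitely many steps there are no tensors.  At the end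
one adds Lie brackets.
-/

set_option autoImplicit false
set_option linter.unusedSectionVars false

open Topology
open scoped Manifold ContDiff

namespace Pool.Agent.Results.MP_813db1_ag.FoliationsOnComplexManifolds

/-- The holomorphic coordinate systems (with values in `ℂ ^ n`) on open subsets of the complex
manifold `X`. -/
def Coordinates (n : ℕ) (X : Type) [TopologicalSpace X] [ChartedSpace (Fin n → ℂ) X] :
    Set (OpenPartialHomeomorph X (Fin n → ℂ)) :=
  IsManifold.maximalAtlas 𝓘(ℂ, Fin n → ℂ) ω X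

/-- The differential of `F : X → X` at `x`, in the coordinates `φ` at `x` and `ψ` at `F x`. -/
noncomputable def differential {n : ℕ} {X : Type} [TopologicalSpace X] (F : X → X)
    (φ ψ : OpenPartialHomeomorph X (Fin n → ℂ)) (x : X) : (Fin n → ℂ) →L[ℂ] (Fin n → ℂ) :=
  fderiv ℂ (ψ ∘ F ∘ φ.symm) (φ x)

/-- A family of tangent subspaces: in all coordinates `φ` and at all points `x` a subspace `𝓕 φ x` of
`ℂ ^ n`, the coordinate space of the tangent space at `x`. -/
abbrev Subspaces (n : ℕ) (X : Type) [TopologicalSpace X] : Type :=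
  OpenPartialHomeomorph X (Fin n → ℂ) → X → Submodule ℂ (Fin n → ℂ)

/-- `η` is a holomorphic pluricanonical form of degree `m` on `X`, a section of `K_X ^ m`: in
the coordinates `φ` it is `η φ x (dz₁ ∧ ... ∧ dzₙ) ^ m`; the coefficients transform with the power `m`
of the Jacobian determinant and they are holomorphic. -/
structure IsPluricanonical (n m : ℕ) {X : Type} [TopologicalSpace X]
    [ChartedSpace (Fin n → ℂ) X] (η : OpenPartialHomeomorph X (Fin n → ℂ) → X → ℂ) : Prop where
  change : ∀ φ ∈ Coordinates n X, ∀ ψ ∈ Coordinates n X, ∀ x ∈ φ.source, x ∈ ψ.source →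
    η φ x = (differential id φ ψ x).det ^ m * η ψ x
  holomorphic : ∀ φ ∈ Coordinates n X, DifferentiableOn ℂ (fun z => η φ (φ.symm z)) φ.target

section subspaces

variable {n : ℕ} {X : Type} [TopologicalSpace X]

/-- The vector `v` at the point `x` belongs to `𝓕` (in the coordinates `φ`). -/
def IsTangent (𝓕 : Subspaces n X) (φ : OpenPartialHomeomorph X (Fin n → ℂ)) (x : X)
    (v : Fin n → ℂ) : Prop := v ∈ 𝓕 φ x

/-- The differential of `F` at `x` maps the subspace at `x` onto the subspace at `F x`. -/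
def Preserved (𝓕 : Subspaces n X) (F : X → X) (φ ψ : OpenPartialHomeomorph X (Fin n → ℂ)) (x : X) :
    Prop :=
  𝓕 ψ (F x) = (𝓕 φ x).map (differential F φ ψ x : (Fin n → ℂ) →ₗ[ℂ] (Fin n → ℂ))

/-- `W` is an open set of values of the coordinates `φ`, of points of `M`. -/
def IsDomain (M : Set X) (φ : OpenPartialHomeomorph X (Fin n → ℂ)) (W : Set (Fin n → ℂ)) : Prop :=
  IsOpen W ∧ W ⊆ φ.target ∧ ∀ z ∈ W, φ.symm z ∈ M

/-- The vector fields `e · 0, ..., e · (r - 1)` on `W` are holomorphic and their values are a basis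
of `𝓕` at each point. -/
def IsFrame {r : ℕ} (𝓕 : Subspaces n X) (φ : OpenPartialHomeomorph X (Fin n → ℂ))
    (W : Set (Fin n → ℂ)) (e : (Fin n → ℂ) → Fin r → Fin n → ℂ) : Prop :=
  DifferentiableOn ℂ e W ∧ ∀ z ∈ W, LinearIndependent ℂ (e z) ∧
    Submodule.span ℂ (Set.range (e z)) = 𝓕 φ (φ.symm z)

/-- `u` is a holomorphic vector field on `W` which is tangent to `𝓕`. -/
def IsField (𝓕 : Subspaces n X) (φ : OpenPartialHomeomorph X (Fin n → ℂ)) (W : Set (Fin n → ℂ))
    (u : (Fin n → ℂ) → Fin n → ℂ) : Prop :=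
  DifferentiableOn ℂ u W ∧ ∀ z ∈ W, IsTangent 𝓕 φ (φ.symm z) (u z)

end subspaces

/-- The Lie bracket of two vector fields. -/
noncomputable def bracket {n : ℕ} (u v : (Fin n → ℂ) → Fin n → ℂ) (z : Fin n → ℂ) : Fin n → ℂ :=
  fderiv ℂ v z (u z) - fderiv ℂ u z (v z)

/-- `𝓕` is a holomorphic foliation of rank `r` on the subset `M` of `X`: `M` is open; the
subspaces in different coordinates correspond to each other; on `M` they have locally bases of
holomorphic vector fields; and the Lie bracket of holomorphic vector fields which are tangent to `𝓕`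
is tangent to `𝓕`. -/
structure IsFoliation (n r : ℕ) {X : Type} [TopologicalSpace X] [ChartedSpace (Fin n → ℂ) X]
    (M : Set X) (𝓕 : Subspaces n X) : Prop where
  isOpen : IsOpen M
  change : ∀ φ ∈ Coordinates n X, ∀ ψ ∈ Coordinates n X, ∀ x ∈ φ.source, x ∈ ψ.source → x ∈ M →
    Preserved 𝓕 id φ ψ x
  frame : ∀ φ ∈ Coordinates n X, ∀ x ∈ φ.source, x ∈ M → ∃ (W : Set (Fin n → ℂ))
    (e : (Fin n → ℂ) → Fin r → Fin n → ℂ), IsDomain M φ W ∧ φ x ∈ W ∧ IsFrame 𝓕 φ W e
  involutive : ∀ φ ∈ Coordinates n X, ∀ W : Set (Fin n → ℂ), IsDomain M φ W → ∀ u v,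
    IsField 𝓕 φ W u → IsField 𝓕 φ W v → ∀ z ∈ W, IsTangent 𝓕 φ (φ.symm z) (bracket u v z)

/-- `F` is an automorphism (a biholomorphic map) of the complex manifold `X`. -/
def IsAutomorphism (n : ℕ) {X : Type} [TopologicalSpace X] [ChartedSpace (Fin n → ℂ) X]
    (F : X → X) : Prop :=
  ∃ G : Diffeomorph 𝓘(ℂ, Fin n → ℂ) 𝓘(ℂ, Fin n → ℂ) X X ω, ⇑G = F

/-- `M` and `𝓕` are invariant under all automorphisms of `X`. -/
def IsInvariant (n : ℕ) {X : Type} [TopologicalSpace X] [ChartedSpace (Fin n → ℂ) X]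
    (M : Set X) (𝓕 : Subspaces n X) : Prop :=
  ∀ F : X → X, IsAutomorphism n F → ∀ x ∈ M, F x ∈ M ∧
    ∀ φ ∈ Coordinates n X, ∀ ψ ∈ Coordinates n X, x ∈ φ.source → F x ∈ ψ.source →
      Preserved 𝓕 F φ ψ x

/-- A family of functions of `N` tangent vectors: in all coordinates `φ` and at all points `x` a
`ℂ`-multilinear function on `ℂ ^ n`. -/
abbrev Multilinear (n N : ℕ) (X : Type) [TopologicalSpace X] : Type :=
  OpenPartialHomeomorph X (Fin n → ℂ) → X → MultilinearMap ℂ (fun _ : Fin N => Fin n → ℂ) ℂ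

/-- The value of `s` at `x` on the tangent vectors `v 0, ..., v (N - 1)`. -/
def value {n N : ℕ} {X : Type} [TopologicalSpace X] (s : Multilinear n N X)
    (φ : OpenPartialHomeomorph X (Fin n → ℂ)) (x : X) (v : Fin N → Fin n → ℂ) : ℂ := s φ x v

/-- `s` is a holomorphic tensor of degree `N` on the foliation `𝓕` over `M`, a section of
`(𝓕 *) ^ ⊗ N`: at each point of `M` a multilinear function of `N` tangent vectors in `𝓕` (only
its values on vectors in `𝓕` matter), compatible with changes of coordinates, whose values on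
holomorphic vector fields tangent to `𝓕` are holomorphic. -/
structure IsTensor (n N : ℕ) {X : Type} [TopologicalSpace X] [ChartedSpace (Fin n → ℂ) X]
    (M : Set X) (𝓕 : Subspaces n X) (s : Multilinear n N X) : Prop where
  change : ∀ φ ∈ Coordinates n X, ∀ ψ ∈ Coordinates n X, ∀ x ∈ φ.source, x ∈ ψ.source → x ∈ M →
    ∀ v : Fin N → Fin n → ℂ, (∀ i, IsTangent 𝓕 φ x (v i)) →
      value s ψ x (fun i => differential id φ ψ x (v i)) = value s φ x v
  holomorphic : ∀ φ ∈ Coordinates n X, ∀ W : Set (Fin n → ℂ), IsDomain M φ W →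
    ∀ v : Fin N → (Fin n → ℂ) → Fin n → ℂ, (∀ i, IsField 𝓕 φ W (v i)) →
      DifferentiableOn ℂ (fun z => value s φ (φ.symm z) fun i => v i z) W

/-- Holomorphic functions extend over the complement of `M` (which is dense in `X`): for all
coordinates `φ` and all open sets `W` in the target, each function which is holomorphic on the points
of `W` over `M` is the restriction of a holomorphic function on `W`. -/
def IsHartogs (n : ℕ) {X : Type} [TopologicalSpace X] [ChartedSpace (Fin n → ℂ) X]
    (M : Set X) : Prop :=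
  ∀ φ ∈ Coordinates n X, ∀ W : Set (Fin n → ℂ), IsOpen W → W ⊆ φ.target →
    ∀ g : (Fin n → ℂ) → ℂ, DifferentiableOn ℂ g (W ∩ φ.symm ⁻¹' M) →
      ∃ g' : (Fin n → ℂ) → ℂ, DifferentiableOn ℂ g' W ∧ ∀ z ∈ W, φ.symm z ∈ M → g' z = g z

section proof

open Pool.Agent.Helper91.CX

variable {n : ℕ} {X : Type} [TopologicalSpace X] [ChartedSpace (Fin n → ℂ) X]
  [IsManifold 𝓘(ℂ, Fin n → ℂ) ω X]

theorem hartogs_of_rem {M : Set X} (hd : Dense M) (h : Rem n M Set.univ) : IsHartogs n M := by
  classical
  intro φ hφ W hW hWt g hg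
  have h1 : ∀ y : W, ∃ (W' : Set (Fin n → ℂ)) (g' : (Fin n → ℂ) → ℂ), IsOpen W' ∧ W' ⊆ W ∧
      (y : Fin n → ℂ) ∈ W' ∧ DifferentiableOn ℂ g' W' ∧ ∀ z ∈ W', φ.symm z ∈ M → g' z = g z := by
    intro y
    have hy := hWt y.2
    have h2 := h φ hφ (φ.symm y) (φ.map_target hy) (Set.mem_univ _) W
      ⟨hW, hWt, fun _ _ => Set.mem_univ _⟩ (by rw [φ.right_inv hy]; exact y.2) g hg
    rw [φ.right_inv hy] at h2
    exact h2
  choose W' g' hW'o hW's hyW' hg' hgg using h1
  have hdense : ∀ y z : W, (z : Fin n → ℂ) ∈ W' y → g' z z = g' y z := by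
    intro y z hz
    have ho : IsOpen (W' y ∩ W' z) := (hW'o y).inter (hW'o z)
    have hdom : Dom φ Set.univ (W' y ∩ W' z) :=
      ⟨ho, fun w hw => hWt (hW's y hw.1), fun _ _ => Set.mem_univ _⟩
    have h2 := zero_of_dense (f := fun w => g' z w - g' y w)
      (Z := (W' y ∩ W' z) ∩ φ.symm ⁻¹' M) ho
      (((hg' z).continuousOn.mono Set.inter_subset_right).sub
        ((hg' y).continuousOn.mono Set.inter_subset_left)) ⟨hz, hyW' z⟩
      (dense_dom φ (G := M) (M' := Set.univ) (by rw [hd.closure_eq]) hdom ⟨hz, hyW' z⟩) (by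
        rintro w ⟨hw, hwM⟩
        rw [hgg z w hw.2 hwM, hgg y w hw.1 hwM, sub_self])
    exact sub_eq_zero.1 h2
  refine ⟨fun z => if hz : z ∈ W then g' ⟨z, hz⟩ z else 0, fun z hz => ?_, fun z hz hzM => ?_⟩
  · have h2 : DifferentiableAt ℂ (g' ⟨z, hz⟩) z :=
      (hg' ⟨z, hz⟩).differentiableAt ((hW'o ⟨z, hz⟩).mem_nhds (hyW' ⟨z, hz⟩))
    refine (h2.congr_of_eventuallyEq ?_).differentiableWithinAt
    filter_upwards [(hW'o ⟨z, hz⟩).mem_nhds (hyW' ⟨z, hz⟩)] with w hw
    have hwW : w ∈ W := hW's _ hw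
    rw [dif_pos hwW]
    exact hdense ⟨z, hz⟩ ⟨w, hwW⟩ hw
  · beta_reduce
    rw [dif_pos hz]
    exact hgg ⟨z, hz⟩ z (hyW' ⟨z, hz⟩) hzM

/-- the standard basis -/
def sb (n : ℕ) : Fin n → Fin n → ℂ := fun i => Pi.single i 1

theorem sb_coord (v : Fin n → ℂ) : v = ∑ j, v j • sb n j := by
  funext l
  rw [Finset.sum_apply, Finset.sum_eq_single l]
  · rw [Pi.smul_apply, sb, Pi.single_eq_same, smul_eq_mul, mul_one]
  · intro j _ hj
    rw [Pi.smul_apply, sb, Pi.single_eq_of_ne hj.symm, smul_zero]
  · simp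

theorem sb_mv (C : Matrix (Fin n) (Fin n) ℂ) : mv C (sb n) = fun i => C i := by
  funext i
  exact (sb_coord (C i)).symm

theorem sb_li : LinearIndependent ℂ (sb n) := by
  have := (Pi.basisFun ℂ (Fin n)).linearIndependent
  have h2 : sb n = Pi.basisFun ℂ (Fin n) := by
    funext i
    rw [Pi.basisFun_apply]
    rfl
  rw [h2]
  exact this

theorem sb_span : Submodule.span ℂ (Set.range (sb n)) = ⊤ := by
  have h2 : sb n = Pi.basisFun ℂ (Fin n) := by
    funext i
    rw [Pi.basisFun_apply]
    rfl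
  rw [h2]
  exact (Pi.basisFun ℂ (Fin n)).span_eq

theorem det_sb (L : (Fin n → ℂ) →L[ℂ] (Fin n → ℂ)) :
    (Matrix.of fun i => L (sb n i)).det = L.det := by
  rw [ContinuousLinearMap.det, ← LinearMap.det_toMatrix', ← Matrix.det_transpose]
  rfl

theorem noSec_of (h : ∀ m, 0 < m → ∀ η : OpenPartialHomeomorph X (Fin n → ℂ) → X → ℂ,
      IsPluricanonical n m η → ∀ φ ∈ Coordinates n X, ∀ x ∈ φ.source, η φ x = 0) (m : ℕ)
    (hm : 0 < m) : NoSec (formL n m) (Set.univ : Set X)
      (fun _ _ => ⊤ : Ch n X → X → Submodule ℂ (Fin n → ℂ)) := by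
  intro s hs
  have hfr : ∀ (φ : Ch n X) (x : X), Fr (fun _ _ => ⊤ : Ch n X → X → Submodule ℂ (Fin n → ℂ)) φ x
      (sb n) := fun φ x => ⟨sb_li, sb_span⟩
  have hlaw : ∀ φ ∈ Charts n X, ∀ x ∈ φ.source, ∀ C : Matrix (Fin n) (Fin n) ℂ, C.det ≠ 0 →
      s φ x (mv C (sb n)) () = C.det ^ m * s φ x (sb n) () := by
    intro φ hφ x hx C hC
    have h2 : ∑ I : Unit, C.det ^ m * s φ x (sb n) I = C.det ^ m * s φ x (sb n) () :=
      Fintype.sum_unique _
    exact (hs.law φ hφ x hx (Set.mem_univ _) _ (hfr φ x) C hC ()).trans h2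
  have h0 := h m hm (fun φ x => s φ x (sb n) ()) ⟨?_, ?_⟩
  · intro φ hφ x hx _ e he I
    obtain ⟨C, hC, rfl⟩ := fr_exists (hfr φ x) he
    have h3 := hlaw φ hφ x hx C hC
    have h4 : s φ x (sb n) () = 0 := h0 φ hφ x hx
    rw [h4, mul_zero] at h3
    exact h3
  · intro φ hφ ψ hψ x hx hx'
    have h1 := hs.nat φ hφ ψ hψ x hx hx' (Set.mem_univ _) (sb n) (hfr φ x)
    have h2 : (fun i => der id φ ψ x (sb n i)) =
        mv (Matrix.of fun i => der id φ ψ x (sb n i)) (sb n) := by
      rw [sb_mv]
      rfl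
    have h4 : (Matrix.of fun i => der id φ ψ x (sb n i)).det ≠ 0 := by
      have h5 := fr_der (F := idA) p_ch dist_top hφ hψ hx (Set.mem_univ _) hx' (hfr φ x)
      have h6 : LinearIndependent ℂ (fun i => der id φ ψ x (sb n i)) := h5.1
      rw [h2, mv_eq_lt, Pool.Agent.Helper91.HM.Tw.lt_li] at h6
      exact h6.2
    have h5 := hlaw ψ hψ x hx' _ h4
    rw [← h2, h1, det_sb] at h5
    exact h5
  · intro φ hφ
    exact hs.hol φ hφ φ.target (fun _ => sb n) ⟨φ.open_target, subset_rfl, fun _ _ =>
      Set.mem_univ _⟩ (fun i j => differentiableOn_const _) (fun y hy => hfr φ _) ()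

theorem tensor_zero {N r : ℕ} {M : Set X} {𝓕 : Subspaces n X} (hd : IsDist M 𝓕 r)
    (hno : NoSec (tenL r N) M 𝓕) {s : Multilinear n N X} (hs : IsTensor n N M 𝓕 s)
    {φ : OpenPartialHomeomorph X (Fin n → ℂ)} (hφ : φ ∈ Coordinates n X) {x : X}
    (hx : x ∈ φ.source) (hxM : x ∈ M) {v : Fin N → Fin n → ℂ} (hv : ∀ i, IsTangent 𝓕 φ x (v i)) :
    value s φ x v = 0 := by
  classical
  have hexp : ∀ (m' : ℕ) (t : MultilinearMap ℂ (fun _ : Fin N => Fin n → ℂ) ℂ)
      (c : Fin N → Fin m' → ℂ) (e : Fin m' → Fin n → ℂ),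
      t (fun i => ∑ j, c i j • e j) = ∑ I : Fin N → Fin m', (∏ k, c k (I k)) * t fun k => e (I k) := by
    intro m' t c e
    rw [MultilinearMap.map_sum]
    refine Finset.sum_congr rfl fun I _ => ?_
    rw [MultilinearMap.map_smul_univ]
    rfl
  have hsec : IsSec (tenL r N) M 𝓕 (fun φ x e I => s φ x fun k => e (I k)) := by
    refine ⟨fun φ hφ x hx hxM e he C hC J => hexp r _ (fun k => C (J k)) e,
      fun φ hφ ψ hψ x hx hx' hxM e he => ?_, fun φ hφ W e hW he hf I => ?_⟩
    · funext I
      refine hs.change φ hφ ψ hψ x hx hx' hxM (fun k => e (I k)) fun i => ?_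
      rw [IsTangent, ← he.2]
      exact Submodule.subset_span ⟨_, rfl⟩
    · refine hs.holomorphic φ hφ W hW (fun k z => e z (I k)) fun i =>
        ⟨differentiableOn_pi.2 fun j => he _ j, fun z hz => ?_⟩
      rw [IsTangent, ← (hf z hz).2]
      exact Submodule.subset_span ⟨_, rfl⟩
  obtain ⟨W, e, hW, hxW, he, hf⟩ := hd.frame φ hφ x hx hxM
  have h1 := hf _ hxW
  rw [φ.left_inv hx] at h1
  have h2 : ∀ i, ∃ c : Fin r → ℂ, ∑ j, c j • e (φ x) j = v i := fun i =>
    Pool.Agent.Helper91.HM.mem_span_fam.1 (by rw [h1.2]; exact hv i)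
  choose c hc using h2
  have h3 : v = fun i => ∑ j, c i j • e (φ x) j := funext fun i => (hc i).symm
  rw [value, h3, hexp]
  refine Finset.sum_eq_zero fun I _ => ?_
  have h4 : s φ x (fun k => e (φ x) (I k)) = 0 := hno _ hsec φ hφ x hx hxM _ h1 I
  rw [h4, mul_zero]

end proof

/-- **Complex manifolds without pluricanonical forms carry a foliation without tensors.**  Let `X` be a
connected complex manifold of dimension `n ≥ 1` such that all holomorphic pluricanonical forms of
degree `m > 0` on `X` vanish.  Then there are an open subset `M` of `X` and a holomorphic foliation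
`𝓕` on `M` of rank `r > 0` such that
(1) `M` is dense and connected, and holomorphic functions extend over the complement of `M`;
(2) `M` and `𝓕` are invariant under all automorphisms of `X`;
(3) all holomorphic tensors on `𝓕` over `M` of degree `N > 0` vanish. -/
theorem result (n : ℕ) (hn : 0 < n) (X : Type) [TopologicalSpace X] [ConnectedSpace X]
    [ChartedSpace (Fin n → ℂ) X] [IsManifold 𝓘(ℂ, Fin n → ℂ) ω X]
    (h : ∀ m, 0 < m → ∀ η : OpenPartialHomeomorph X (Fin n → ℂ) → X → ℂ,
      IsPluricanonical n m η → ∀ φ ∈ Coordinates n X, ∀ x ∈ φ.source, η φ x = 0) :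
    ∃ (r : ℕ) (M : Set X) (𝓕 : Subspaces n X), 0 < r ∧ IsFoliation n r M 𝓕 ∧
      Dense M ∧ IsConnected M ∧ IsHartogs n M ∧ IsInvariant n M 𝓕 ∧
      ∀ N, 0 < N → ∀ s, IsTensor n N M 𝓕 s → ∀ φ ∈ Coordinates n X, ∀ x ∈ φ.source, x ∈ M →
        ∀ v : Fin N → Fin n → ℂ, (∀ i, IsTangent 𝓕 φ x (v i)) → value s φ x v = 0 := by
  obtain ⟨r, M, 𝓕, hr, hd, hdense, hrem, hconn, hinv, hno⟩ :=
    Pool.Agent.Helper91.CX.main_fol hn fun m hm => noSec_of h m hm
  refine ⟨r, M, 𝓕, hr, ⟨hd.isOpen, fun φ hφ ψ hψ x hx hx' hxM =>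
    hd.nat Pool.Agent.Helper91.CX.idA φ hφ ψ hψ x hx hxM hx', fun φ hφ x hx hxM => ?_,
    fun φ hφ W hW u v hu hv z hz => hinv φ hφ W u v hW hu.1 hv.1 hu.2 hv.2 z hz⟩, hdense, hconn,
    hartogs_of_rem hdense hrem, ?_, fun N hN s hs φ hφ x hx hxM v hv =>
      tensor_zero hd (hno N hN) hs hφ hx hxM hv⟩
  · obtain ⟨W, e, hW, hxW, he, hf⟩ := hd.frame φ hφ x hx hxM
    exact ⟨W, e, hW, hxW, differentiableOn_pi.2 fun i => differentiableOn_pi.2 fun j =>
      he i j, fun z hz => hf z hz⟩
  · rintro _ ⟨F, rfl⟩ x hxM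
    exact ⟨hd.inv F x hxM, fun φ hφ ψ hψ hx hFx => hd.nat F φ hφ ψ hψ x hx hxM hFx⟩

end Pool.Agent.Results.MP_813db1_ag.FoliationsOnComplexManifolds
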