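import Pool.Agent.Helper91.FE.Final

/-!
# Failure of nonvanishing and a distribution without tensors of positive weight

Let `X` be given by its function field `K` and its prime divisors (for example a projective or
Moishezon manifold), `n ≥ 1` its dimension, and `Δ` a divisor with coefficients `≥ 0` (for example
`Δ = 0`).  For a distribution `U ⊆ T_X` let `K_U` be its canonical divisor and `Δ_U` the part of `Δ`
whose prime divisors are not `U`-invariant.

**Theorem.**  If the Kodaira dimension of `(X, Δ)` is less than `κ` then there is a distribution
`U ≠ 0`, invariant under all automorphisms of the field `K` which preserve `(X, Δ)`, such that each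
orbifold tensor differential on `U`, of any degree `N ≥ 0` and any symmetry, with values in
`a (K_U + Δ_U) + b (K_X + Δ)`, of Iitaka dimension at least `κ` is zero; here `a` and `b` are any
integers, also negative ones, such that the weights `N + a rk U` and `N + a rk U + b n` are positive.  If
`U ≠ T_X` then each such tensor is zero.

For `κ = 0` and `Δ = 0`: if nonvanishing fails for `X` then there is a canonical distribution `U ≠ 0`
such that all tensors of positive weight on `U` vanish: `T_U ^ ⊗ p ⊗ Ω_U ^ ⊗ q ⊗ O (b K_X)` has no
sections for all `q > p ≥ 0` and all `b ≥ 0` (as `T_U = Λ ^ (r - 1) Ω_U ⊗ O (- K_U)` where `r = rk U`).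

The foliation which is generated by `U` is considered in `MP_bc213e_ag.FoliationWithoutTensors`; on it
only the tensors with `a ≥ 0` are shown to vanish, and the coefficients of `Δ` have to be at most one.
-/

set_option autoImplicit false

open Module FF Pool.Agent.W602.GT Pool.Agent.Helper91.HM.Tw Pool.Agent.Helper91.Fol2

namespace Pool.Agent.Results.MP_813db1_ag.NegativeDistribution

/-- **The distribution without tensors of positive weight.**  Let `(X, Δ)` be a pair of dimension
`n ≥ 1` with function field `K` and coefficients `δ P ≥ 0` such that `κ(X, Δ) < κ`.  Then there is a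
nonzero distribution `U`, invariant under all automorphisms of the field `K` which preserve `(X, Δ)`,
such that for all `N ≥ 0` and all integers `a, b` with `N + a rk U > 0` and `N + a rk U + b n > 0` each
orbifold tensor differential of degree `N` on `U` with values in `a (K_U + Δ_U) + b (K_X + Δ)` is zero,
provided that `U ≠ T_X` or that the Iitaka dimension of the tensor is at least `κ`. -/
theorem result {K : Type} [Field K] [Algebra ℂ K] [Algebra.EssFiniteType ℂ K] {n : ℕ}
    (hn : Algebra.trdeg ℂ K = n) (hn0 : 0 < n) (X : Set (Place ℂ K)) (δ : Place ℂ K → ℝ)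
    (hδ : ∀ P ∈ X, 0 ≤ δ P) (κ : ℕ) (hκ : ¬ KodairaGe n X δ κ) :
    ∃ U : Submodule K (Derivation ℂ K K), U ≠ ⊥ ∧ AutInvariant X δ U ∧
      ∀ (N : ℕ) (a b : ℤ), 0 < (N : ℤ) + rk U * a → 0 < (N : ℤ) + rk U * a + n * b →
        NoTensors n X δ U κ N a b ∧ (U ≠ ⊤ → NoTensors n X δ U 0 N a b) :=
  Pool.Agent.Helper91.FE.final_dist hn hn0 X δ hδ κ hκ

end Pool.Agent.Results.MP_813db1_ag.NegativeDistribution
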