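import Pool.Agent.Helper91.CM.IndB
import Pool.Agent.Helper91.CM.BrkB

/-!
# One plurigenus of a complex manifold, and foliations without tensors of bounded degree

**Theorem.**  For all `n ≥ 1` and `D` there is a number `P > 0` such that the following holds for each
connected complex manifold `X` of dimension `n` (compact or not, Kähler or not, in class `𝓒` or not).
Suppose that `X` has no nonzero holomorphic pluricanonical forms of the one degree `P`, that is,
`H ^ 0 (X, K_X ^ P) = 0`.  Then there are a connected dense open subset `M` of `X`, such that all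
holomorphic functions extend over the complement of `M` (as for the complement of an analytic subset
of codimension at least two), and a holomorphic foliation `𝓕 ≠ 0` on `M` (an involutive holomorphic
subbundle of the tangent bundle), such that `M` and `𝓕` are invariant under all automorphisms of `X`
and all holomorphic tensors on `𝓕`, the sections over `M` of `(𝓕 *) ^ ⊗ N`, of the degrees `N` with
`0 < N ≤ D` and of any symmetry, vanish.

The manifolds vary here, with `n` fixed, and `P` depends only on `n` and `D`.  The hypothesis is one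
plurigenus only; the other plurigenera and the Kodaira dimension of `X` are arbitrary.

The proof makes the one of `FoliationsOnComplexManifolds` effective: the degrees of the pluricanonical
forms which occur there are bounded.  The invariants of `SL r` of the tensors of degrees `≤ D` are
finitely generated (Hilbert), so finitely many of them decide whether a family of tensors is unstable
at the generic point of a ball, over all quotient fields of rings of holomorphic functions at once; the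
optimal weights (Kempf) of such families are finitely many; the leading parts have nonzero invariants
of bounded degree; and the bounds pass through the induction on the rank and through the Lie brackets,
for which the bound on the degrees of the tensors is doubled.
-/

set_option autoImplicit false
set_option linter.unusedSectionVars false

open Topology
open scoped Manifold ContDiff

namespace Pool.Agent.Results.MP_813db1_ag.OnePlurigenus

/-- The holomorphic coordinate systems (with values in `ℂ ^ n`) on open subsets of the complex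
manifold `X`. -/
def Coordinates (n : ℕ) (X : Type) [TopologicalSpace X] [ChartedSpace (Fin n → ℂ) X] :
    Set (OpenPartialHomeomorph X (Fin n → ℂ)) :=
  IsManifold.maximalAtlas 𝓘(ℂ, Fin n → ℂ) ω X

/-- The differential of `F : X → X` at `x`, in the coordinates `φ` at `x` and `ψ` at `F x`. -/
noncomputable def differential {n : ℕ} {X : Type} [TopologicalSpace X] (F : X → X)
    (φ ψ : OpenPartialHomeomorph X (Fin n → ℂ)) (x : X) : (Fin n → ℂ) →L[ℂ] (Fin n → ℂ) :=
  fderiv ℂ (ψ ∘ F ∘ φ.symm) (φ x)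

/-- A family of tangent subspaces: in all coordinates `φ` and at all points `x` a subspace `𝓕 φ x` of
`ℂ ^ n`, the coordinate space of the tangent space at `x`. -/
abbrev Subspaces (n : ℕ) (X : Type) [TopologicalSpace X] : Type :=
  OpenPartialHomeomorph X (Fin n → ℂ) → X → Submodule ℂ (Fin n → ℂ)

/-- `η` is a holomorphic pluricanonical form of degree `m` on `X`, a section of `K_X ^ m`: in
the coordinates `φ` it is `η φ x (dz₁ ∧ ... ∧ dzₙ) ^ m`; the coefficients transform with the power `m`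
of the Jacobian determinant and they are holomorphic. -/
structure IsPluricanonical (n m : ℕ) {X : Type} [TopologicalSpace X]
    [ChartedSpace (Fin n → ℂ) X] (η : OpenPartialHomeomorph X (Fin n → ℂ) → X → ℂ) : Prop where
  change : ∀ φ ∈ Coordinates n X, ∀ ψ ∈ Coordinates n X, ∀ x ∈ φ.source, x ∈ ψ.source →
    η φ x = (differential id φ ψ x).det ^ m * η ψ x
  holomorphic : ∀ φ ∈ Coordinates n X, DifferentiableOn ℂ (fun z => η φ (φ.symm z)) φ.target

section subspaces

variable {n : ℕ} {X : Type} [TopologicalSpace X]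

/-- The vector `v` at the point `x` belongs to `𝓕` (in the coordinates `φ`). -/
def IsTangent (𝓕 : Subspaces n X) (φ : OpenPartialHomeomorph X (Fin n → ℂ)) (x : X)
    (v : Fin n → ℂ) : Prop := v ∈ 𝓕 φ x

/-- The differential of `F` at `x` maps the subspace at `x` onto the subspace at `F x`. -/
def Preserved (𝓕 : Subspaces n X) (F : X → X) (φ ψ : OpenPartialHomeomorph X (Fin n → ℂ)) (x : X) :
    Prop :=
  𝓕 ψ (F x) = (𝓕 φ x).map (differential F φ ψ x : (Fin n → ℂ) →ₗ[ℂ] (Fin n → ℂ))

/-- `W` is an open set of values of the coordinates `φ`, of points of `M`. -/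
def IsDomain (M : Set X) (φ : OpenPartialHomeomorph X (Fin n → ℂ)) (W : Set (Fin n → ℂ)) : Prop :=
  IsOpen W ∧ W ⊆ φ.target ∧ ∀ z ∈ W, φ.symm z ∈ M

/-- The vector fields `e · 0, ..., e · (r - 1)` on `W` are holomorphic and their values are a basis
of `𝓕` at each point. -/
def IsFrame {r : ℕ} (𝓕 : Subspaces n X) (φ : OpenPartialHomeomorph X (Fin n → ℂ))
    (W : Set (Fin n → ℂ)) (e : (Fin n → ℂ) → Fin r → Fin n → ℂ) : Prop :=
  DifferentiableOn ℂ e W ∧ ∀ z ∈ W, LinearIndependent ℂ (e z) ∧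
    Submodule.span ℂ (Set.range (e z)) = 𝓕 φ (φ.symm z)

/-- `u` is a holomorphic vector field on `W` which is tangent to `𝓕`. -/
def IsField (𝓕 : Subspaces n X) (φ : OpenPartialHomeomorph X (Fin n → ℂ)) (W : Set (Fin n → ℂ))
    (u : (Fin n → ℂ) → Fin n → ℂ) : Prop :=
  DifferentiableOn ℂ u W ∧ ∀ z ∈ W, IsTangent 𝓕 φ (φ.symm z) (u z)

end subspaces

/-- The Lie bracket of two vector fields. -/
noncomputable def bracket {n : ℕ} (u v : (Fin n → ℂ) → Fin n → ℂ) (z : Fin n → ℂ) : Fin n → ℂ :=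
  fderiv ℂ v z (u z) - fderiv ℂ u z (v z)

/-- `𝓕` is a holomorphic foliation of rank `r` on the subset `M` of `X`: `M` is open; the
subspaces in different coordinates correspond to each other; on `M` they have locally bases of
holomorphic vector fields; and the Lie bracket of holomorphic vector fields which are tangent to `𝓕`
is tangent to `𝓕`. -/
structure IsFoliation (n r : ℕ) {X : Type} [TopologicalSpace X] [ChartedSpace (Fin n → ℂ) X]
    (M : Set X) (𝓕 : Subspaces n X) : Prop where
  isOpen : IsOpen M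
  change : ∀ φ ∈ Coordinates n X, ∀ ψ ∈ Coordinates n X, ∀ x ∈ φ.source, x ∈ ψ.source → x ∈ M →
    Preserved 𝓕 id φ ψ x
  frame : ∀ φ ∈ Coordinates n X, ∀ x ∈ φ.source, x ∈ M → ∃ (W : Set (Fin n → ℂ))
    (e : (Fin n → ℂ) → Fin r → Fin n → ℂ), IsDomain M φ W ∧ φ x ∈ W ∧ IsFrame 𝓕 φ W e
  involutive : ∀ φ ∈ Coordinates n X, ∀ W : Set (Fin n → ℂ), IsDomain M φ W → ∀ u v,
    IsField 𝓕 φ W u → IsField 𝓕 φ W v → ∀ z ∈ W, IsTangent 𝓕 φ (φ.symm z) (bracket u v z)

/-- `F` is an automorphism (a biholomorphic map) of the complex manifold `X`. -/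
def IsAutomorphism (n : ℕ) {X : Type} [TopologicalSpace X] [ChartedSpace (Fin n → ℂ) X]
    (F : X → X) : Prop :=
  ∃ G : Diffeomorph 𝓘(ℂ, Fin n → ℂ) 𝓘(ℂ, Fin n → ℂ) X X ω, ⇑G = F

/-- `M` and `𝓕` are invariant under all automorphisms of `X`. -/
def IsInvariant (n : ℕ) {X : Type} [TopologicalSpace X] [ChartedSpace (Fin n → ℂ) X]
    (M : Set X) (𝓕 : Subspaces n X) : Prop :=
  ∀ F : X → X, IsAutomorphism n F → ∀ x ∈ M, F x ∈ M ∧
    ∀ φ ∈ Coordinates n X, ∀ ψ ∈ Coordinates n X, x ∈ φ.source → F x ∈ ψ.source →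
      Preserved 𝓕 F φ ψ x

/-- A family of functions of `N` tangent vectors: in all coordinates `φ` and at all points `x` a
`ℂ`-multilinear function on `ℂ ^ n`. -/
abbrev Multilinear (n N : ℕ) (X : Type) [TopologicalSpace X] : Type :=
  OpenPartialHomeomorph X (Fin n → ℂ) → X → MultilinearMap ℂ (fun _ : Fin N => Fin n → ℂ) ℂ

/-- The value of `s` at `x` on the tangent vectors `v 0, ..., v (N - 1)`. -/
def value {n N : ℕ} {X : Type} [TopologicalSpace X] (s : Multilinear n N X)
    (φ : OpenPartialHomeomorph X (Fin n → ℂ)) (x : X) (v : Fin N → Fin n → ℂ) : ℂ := s φ x v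

/-- `s` is a holomorphic tensor of degree `N` on the foliation `𝓕` over `M`, a section of
`(𝓕 *) ^ ⊗ N`: at each point of `M` a multilinear function of `N` tangent vectors in `𝓕` (only
its values on vectors in `𝓕` matter), compatible with changes of coordinates, whose values on
holomorphic vector fields tangent to `𝓕` are holomorphic. -/
structure IsTensor (n N : ℕ) {X : Type} [TopologicalSpace X] [ChartedSpace (Fin n → ℂ) X]
    (M : Set X) (𝓕 : Subspaces n X) (s : Multilinear n N X) : Prop where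
  change : ∀ φ ∈ Coordinates n X, ∀ ψ ∈ Coordinates n X, ∀ x ∈ φ.source, x ∈ ψ.source → x ∈ M →
    ∀ v : Fin N → Fin n → ℂ, (∀ i, IsTangent 𝓕 φ x (v i)) →
      value s ψ x (fun i => differential id φ ψ x (v i)) = value s φ x v
  holomorphic : ∀ φ ∈ Coordinates n X, ∀ W : Set (Fin n → ℂ), IsDomain M φ W →
    ∀ v : Fin N → (Fin n → ℂ) → Fin n → ℂ, (∀ i, IsField 𝓕 φ W (v i)) →
      DifferentiableOn ℂ (fun z => value s φ (φ.symm z) fun i => v i z) W

/-- Holomorphic functions extend over the complement of `M` (which is dense in `X`): for all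
coordinates `φ` and all open sets `W` in the target, each function which is holomorphic on the points
of `W` over `M` is the restriction of a holomorphic function on `W`. -/
def IsHartogs (n : ℕ) {X : Type} [TopologicalSpace X] [ChartedSpace (Fin n → ℂ) X]
    (M : Set X) : Prop :=
  ∀ φ ∈ Coordinates n X, ∀ W : Set (Fin n → ℂ), IsOpen W → W ⊆ φ.target →
    ∀ g : (Fin n → ℂ) → ℂ, DifferentiableOn ℂ g (W ∩ φ.symm ⁻¹' M) →
      ∃ g' : (Fin n → ℂ) → ℂ, DifferentiableOn ℂ g' W ∧ ∀ z ∈ W, φ.symm z ∈ M → g' z = g z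

section proof

open Pool.Agent.Helper91.CX

variable {n : ℕ} {X : Type} [TopologicalSpace X] [ChartedSpace (Fin n → ℂ) X]
  [IsManifold 𝓘(ℂ, Fin n → ℂ) ω X]

theorem hartogs_of_rem {M : Set X} (hd : Dense M) (h : Rem n M Set.univ) : IsHartogs n M := by
  classical
  intro φ hφ W hW hWt g hg
  have h1 : ∀ y : W, ∃ (W' : Set (Fin n → ℂ)) (g' : (Fin n → ℂ) → ℂ), IsOpen W' ∧ W' ⊆ W ∧
      (y : Fin n → ℂ) ∈ W' ∧ DifferentiableOn ℂ g' W' ∧ ∀ z ∈ W', φ.symm z ∈ M → g' z = g z := by
    intro y
    have hy := hWt y.2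
    have h2 := h φ hφ (φ.symm y) (φ.map_target hy) (Set.mem_univ _) W
      ⟨hW, hWt, fun _ _ => Set.mem_univ _⟩ (by rw [φ.right_inv hy]; exact y.2) g hg
    rw [φ.right_inv hy] at h2
    exact h2
  choose W' g' hW'o hW's hyW' hg' hgg using h1
  have hdense : ∀ y z : W, (z : Fin n → ℂ) ∈ W' y → g' z z = g' y z := by
    intro y z hz
    have ho : IsOpen (W' y ∩ W' z) := (hW'o y).inter (hW'o z)
    have hdom : Dom φ Set.univ (W' y ∩ W' z) :=
      ⟨ho, fun w hw => hWt (hW's y hw.1), fun _ _ => Set.mem_univ _⟩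
    have h2 := zero_of_dense (f := fun w => g' z w - g' y w)
      (Z := (W' y ∩ W' z) ∩ φ.symm ⁻¹' M) ho
      (((hg' z).continuousOn.mono Set.inter_subset_right).sub
        ((hg' y).continuousOn.mono Set.inter_subset_left)) ⟨hz, hyW' z⟩
      (dense_dom φ (G := M) (M' := Set.univ) (by rw [hd.closure_eq]) hdom ⟨hz, hyW' z⟩) (by
        rintro w ⟨hw, hwM⟩
        rw [hgg z w hw.2 hwM, hgg y w hw.1 hwM, sub_self])
    exact sub_eq_zero.1 h2
  refine ⟨fun z => if hz : z ∈ W then g' ⟨z, hz⟩ z else 0, fun z hz => ?_, fun z hz hzM => ?_⟩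
  · have h2 : DifferentiableAt ℂ (g' ⟨z, hz⟩) z :=
      (hg' ⟨z, hz⟩).differentiableAt ((hW'o ⟨z, hz⟩).mem_nhds (hyW' ⟨z, hz⟩))
    refine (h2.congr_of_eventuallyEq ?_).differentiableWithinAt
    filter_upwards [(hW'o ⟨z, hz⟩).mem_nhds (hyW' ⟨z, hz⟩)] with w hw
    have hwW : w ∈ W := hW's _ hw
    rw [dif_pos hwW]
    exact hdense ⟨z, hz⟩ ⟨w, hwW⟩ hw
  · beta_reduce
    rw [dif_pos hz]
    exact hgg ⟨z, hz⟩ z (hyW' ⟨z, hz⟩) hzM

/-- the standard basis -/
def sb (n : ℕ) : Fin n → Fin n → ℂ := fun i => Pi.single i 1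

theorem sb_coord (v : Fin n → ℂ) : v = ∑ j, v j • sb n j := by
  funext l
  rw [Finset.sum_apply, Finset.sum_eq_single l]
  · rw [Pi.smul_apply, sb, Pi.single_eq_same, smul_eq_mul, mul_one]
  · intro j _ hj
    rw [Pi.smul_apply, sb, Pi.single_eq_of_ne hj.symm, smul_zero]
  · simp

theorem sb_mv (C : Matrix (Fin n) (Fin n) ℂ) : mv C (sb n) = fun i => C i := by
  funext i
  exact (sb_coord (C i)).symm

theorem sb_li : LinearIndependent ℂ (sb n) := by
  have := (Pi.basisFun ℂ (Fin n)).linearIndependent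
  have h2 : sb n = Pi.basisFun ℂ (Fin n) := by
    funext i
    rw [Pi.basisFun_apply]
    rfl
  rw [h2]
  exact this

theorem sb_span : Submodule.span ℂ (Set.range (sb n)) = ⊤ := by
  have h2 : sb n = Pi.basisFun ℂ (Fin n) := by
    funext i
    rw [Pi.basisFun_apply]
    rfl
  rw [h2]
  exact (Pi.basisFun ℂ (Fin n)).span_eq

theorem det_sb (L : (Fin n → ℂ) →L[ℂ] (Fin n → ℂ)) :
    (Matrix.of fun i => L (sb n i)).det = L.det := by
  rw [ContinuousLinearMap.det, ← LinearMap.det_toMatrix', ← Matrix.det_transpose]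
  rfl

/-- powers of pluricanonical forms -/
theorem isPluricanonical_pow {m k : ℕ} {η : OpenPartialHomeomorph X (Fin n → ℂ) → X → ℂ}
    (h : IsPluricanonical n m η) : IsPluricanonical n (m * k) (fun φ x => η φ x ^ k) := by
  refine ⟨fun φ hφ ψ hψ x hx hx' => ?_, fun φ hφ => (h.holomorphic φ hφ).pow k⟩
  rw [h.change φ hφ ψ hψ x hx hx', mul_pow, ← pow_mul]

theorem noSec_one {m : ℕ} (h : ∀ η : OpenPartialHomeomorph X (Fin n → ℂ) → X → ℂ,
      IsPluricanonical n m η → ∀ φ ∈ Coordinates n X, ∀ x ∈ φ.source, η φ x = 0) :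
    NoSec (formL n m) (Set.univ : Set X)
      (fun _ _ => ⊤ : Ch n X → X → Submodule ℂ (Fin n → ℂ)) := by
  intro s hs
  have hfr : ∀ (φ : Ch n X) (x : X), Fr (fun _ _ => ⊤ : Ch n X → X → Submodule ℂ (Fin n → ℂ)) φ x
      (sb n) := fun φ x => ⟨sb_li, sb_span⟩
  have hlaw : ∀ φ ∈ Charts n X, ∀ x ∈ φ.source, ∀ C : Matrix (Fin n) (Fin n) ℂ, C.det ≠ 0 →
      s φ x (mv C (sb n)) () = C.det ^ m * s φ x (sb n) () := by
    intro φ hφ x hx C hC
    have h2 : ∑ I : Unit, C.det ^ m * s φ x (sb n) I = C.det ^ m * s φ x (sb n) () :=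
      Fintype.sum_unique _
    exact (hs.law φ hφ x hx (Set.mem_univ _) _ (hfr φ x) C hC ()).trans h2
  have h0 := h (fun φ x => s φ x (sb n) ()) ⟨?_, ?_⟩
  · intro φ hφ x hx _ e he I
    obtain ⟨C, hC, rfl⟩ := fr_exists (hfr φ x) he
    have h3 := hlaw φ hφ x hx C hC
    have h4 : s φ x (sb n) () = 0 := h0 φ hφ x hx
    rw [h4, mul_zero] at h3
    exact h3
  · intro φ hφ ψ hψ x hx hx'
    have h1 := hs.nat φ hφ ψ hψ x hx hx' (Set.mem_univ _) (sb n) (hfr φ x)
    have h2 : (fun i => der id φ ψ x (sb n i)) =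
        mv (Matrix.of fun i => der id φ ψ x (sb n i)) (sb n) := by
      rw [sb_mv]
      rfl
    have h4 : (Matrix.of fun i => der id φ ψ x (sb n i)).det ≠ 0 := by
      have h5 := fr_der (F := idA) p_ch dist_top hφ hψ hx (Set.mem_univ _) hx' (hfr φ x)
      have h6 : LinearIndependent ℂ (fun i => der id φ ψ x (sb n i)) := h5.1
      rw [h2, mv_eq_lt, Pool.Agent.Helper91.HM.Tw.lt_li] at h6
      exact h6.2
    have h5 := hlaw ψ hψ x hx' _ h4
    rw [← h2, h1, det_sb] at h5
    exact h5
  · intro φ hφ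
    exact hs.hol φ hφ φ.target (fun _ => sb n) ⟨φ.open_target, subset_rfl, fun _ _ =>
      Set.mem_univ _⟩ (fun i j => differentiableOn_const _) (fun y hy => hfr φ _) ()

theorem tensor_zero {N r : ℕ} {M : Set X} {𝓕 : Subspaces n X} (hd : IsDist M 𝓕 r)
    (hno : NoSec (tenL r N) M 𝓕) {s : Multilinear n N X} (hs : IsTensor n N M 𝓕 s)
    {φ : OpenPartialHomeomorph X (Fin n → ℂ)} (hφ : φ ∈ Coordinates n X) {x : X}
    (hx : x ∈ φ.source) (hxM : x ∈ M) {v : Fin N → Fin n → ℂ} (hv : ∀ i, IsTangent 𝓕 φ x (v i)) :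
    value s φ x v = 0 := by
  classical
  have hexp : ∀ (m' : ℕ) (t : MultilinearMap ℂ (fun _ : Fin N => Fin n → ℂ) ℂ)
      (c : Fin N → Fin m' → ℂ) (e : Fin m' → Fin n → ℂ),
      t (fun i => ∑ j, c i j • e j) = ∑ I : Fin N → Fin m', (∏ k, c k (I k)) * t fun k => e (I k) := by
    intro m' t c e
    rw [MultilinearMap.map_sum]
    refine Finset.sum_congr rfl fun I _ => ?_
    rw [MultilinearMap.map_smul_univ]
    rfl
  have hsec : IsSec (tenL r N) M 𝓕 (fun φ x e I => s φ x fun k => e (I k)) := by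
    refine ⟨fun φ hφ x hx hxM e he C hC J => hexp r _ (fun k => C (J k)) e,
      fun φ hφ ψ hψ x hx hx' hxM e he => ?_, fun φ hφ W e hW he hf I => ?_⟩
    · funext I
      refine hs.change φ hφ ψ hψ x hx hx' hxM (fun k => e (I k)) fun i => ?_
      rw [IsTangent, ← he.2]
      exact Submodule.subset_span ⟨_, rfl⟩
    · refine hs.holomorphic φ hφ W hW (fun k z => e z (I k)) fun i =>
        ⟨differentiableOn_pi.2 fun j => he _ j, fun z hz => ?_⟩
      rw [IsTangent, ← (hf z hz).2]
      exact Submodule.subset_span ⟨_, rfl⟩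
  obtain ⟨W, e, hW, hxW, he, hf⟩ := hd.frame φ hφ x hx hxM
  have h1 := hf _ hxW
  rw [φ.left_inv hx] at h1
  have h2 : ∀ i, ∃ c : Fin r → ℂ, ∑ j, c j • e (φ x) j = v i := fun i =>
    Pool.Agent.Helper91.HM.mem_span_fam.1 (by rw [h1.2]; exact hv i)
  choose c hc using h2
  have h3 : v = fun i => ∑ j, c i j • e (φ x) j := funext fun i => (hc i).symm
  rw [value, h3, hexp]
  refine Finset.sum_eq_zero fun I _ => ?_
  have h4 : s φ x (fun k => e (φ x) (I k)) = 0 := hno _ hsec φ hφ x hx hxM _ h1 I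
  rw [h4, mul_zero]

end proof

/-- **One plurigenus and foliations without tensors of bounded degree.**  For all `n ≥ 1` and `D`
there is a number `P > 0` such that for each connected complex manifold `X` of dimension `n` on which
all holomorphic pluricanonical forms of the one degree `P` vanish, there are an open subset `M` of `X`
and a holomorphic foliation `𝓕` on `M` of rank `r > 0` such that
(1) `M` is dense and connected, and holomorphic functions extend over the complement of `M`;
(2) `M` and `𝓕` are invariant under all automorphisms of `X`;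
(3) all holomorphic tensors on `𝓕` over `M` of degree `N`, `0 < N ≤ D`, vanish. -/
theorem result (n : ℕ) (hn : 0 < n) (D : ℕ) : ∃ P : ℕ, 0 < P ∧
    ∀ (X : Type) [TopologicalSpace X] [ConnectedSpace X] [ChartedSpace (Fin n → ℂ) X]
      [IsManifold 𝓘(ℂ, Fin n → ℂ) ω X],
      (∀ η : OpenPartialHomeomorph X (Fin n → ℂ) → X → ℂ, IsPluricanonical n P η →
        ∀ φ ∈ Coordinates n X, ∀ x ∈ φ.source, η φ x = 0) →
      ∃ (r : ℕ) (M : Set X) (𝓕 : Subspaces n X), 0 < r ∧ IsFoliation n r M 𝓕 ∧
        Dense M ∧ IsConnected M ∧ IsHartogs n M ∧ IsInvariant n M 𝓕 ∧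
        ∀ N, 0 < N → N ≤ D → ∀ s, IsTensor n N M 𝓕 s → ∀ φ ∈ Coordinates n X,
          ∀ x ∈ φ.source, x ∈ M → ∀ v : Fin N → Fin n → ℂ, (∀ i, IsTangent 𝓕 φ x (v i)) →
            value s φ x v = 0 := by
  obtain ⟨B, hB⟩ := Pool.Agent.Helper91.CX.main_folB n D hn fun X _ _ _ =>
    Pool.Agent.Helper91.CX.brk2B (n := n) (X := X) Pool.Agent.Helper91.CX.p_cr Pool.Agent.Helper91.CX.p_ch
      Pool.Agent.Helper4.CX.der Pool.Agent.Helper91.CX.p_se
  refine ⟨B.factorial, B.factorial_pos, fun X _ _ _ _ h => ?_⟩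
  have hno : ∀ m, 0 < m → m ≤ B → Pool.Agent.Helper91.CX.NoSec
      (Pool.Agent.Helper91.CX.formL n m) (Set.univ : Set X)
      (fun _ _ => ⊤ : Subspaces n X) := by
    intro m hm hmB
    obtain ⟨k, hk⟩ := Nat.dvd_factorial hm hmB
    refine noSec_one fun η hη φ hφ x hx => ?_
    have h1 := isPluricanonical_pow (k := k) hη
    rw [← hk] at h1
    have h2 : η φ x ^ k = 0 := h _ h1 φ hφ x hx
    exact eq_zero_of_pow_eq_zero h2
  obtain ⟨r, M, 𝓕, hr, hd, hdense, hrem, hconn, hinv, hno⟩ := hB X hno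
  refine ⟨r, M, 𝓕, hr, ⟨hd.isOpen, fun φ hφ ψ hψ x hx hx' hxM =>
    hd.nat Pool.Agent.Helper91.CX.idA φ hφ ψ hψ x hx hxM hx', fun φ hφ x hx hxM => ?_,
    fun φ hφ W hW u v hu hv z hz => hinv φ hφ W u v hW hu.1 hv.1 hu.2 hv.2 z hz⟩, hdense, hconn,
    hartogs_of_rem hdense hrem, ?_, fun N hN hND s hs φ hφ x hx hxM v hv =>
      tensor_zero hd (hno N hN hND) hs hφ hx hxM hv⟩
  · obtain ⟨W, e, hW, hxW, he, hf⟩ := hd.frame φ hφ x hx hxM
    exact ⟨W, e, hW, hxW, differentiableOn_pi.2 fun i => differentiableOn_pi.2 fun j =>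
      he i j, fun z hz => hf z hz⟩
  · rintro _ ⟨F, rfl⟩ x hxM
    exact ⟨hd.inv F x hxM, fun φ hφ ψ hψ hx hFx => hd.nat F φ hφ ψ hψ x hx hxM hFx⟩

end Pool.Agent.Results.MP_813db1_ag.OnePlurigenus
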