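import Pool.Agent.Helper91.HM.TwMain

/-!
# Failure of nonvanishing: all tensors of all degrees degenerate along one invariant distribution

Let `X` be projective or Moishezon of dimension `n ≥ 1`, given by its function field `K` and its prime
divisors, and let `Δ` be a divisor with coefficients `≥ 0`, for instance `Δ = 0`.  We consider orbifold tensor differentials `s` of all degrees `N` on
`(X, Δ)` with values in the multiples `a (K_X + Δ)` of the log canonical divisor (`IsTensor`), where
`a` is any integer such that `N + n a > 0`; no symmetry is required.  For `Δ = 0` these are the
sections of `(Ω¹) ^ ⊗ N ⊗ O (a K_X)` of positive weight; as `T_X` is contained in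
`(Ω¹) ^ ⊗ (n - 1) ⊗ O (- K_X)`, they contain the mixed tensor fields, the sections of
`(T_X) ^ ⊗ p ⊗ (Ω¹) ^ ⊗ q`, for all `q > p`.  The Iitaka dimension of `s` is at least `κ` if there are
algebraically independent functions `f 1, ..., f κ` such that `f 1 s, ..., f κ s` are tensors of the
same kind (`IsMovable`); for `κ = 0` there is no condition.

**Theorem.**  If the Kodaira dimension of `(X, Δ)` is less than `κ` then there is one nonzero rational
distribution `U ⊆ T_X`, invariant under all automorphisms of the field `K` which preserve the pair,
such that all these tensors `s` of Iitaka dimension at least `κ`, for all `N` and `a`, vanish on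
`x_1, ..., x_N` whenever at least `(1 - 1 / n) N` of the rational vector fields `x_i` lie in `U`.  For
symmetric tensors this says that `s` vanishes along `U` to order greater than `N / n`.

For `κ = 0`: if nonvanishing fails for `(X, Δ)`, all tensors of positive weight degenerate along one
invariant distribution.  In other words, nonvanishing holds if for each nonzero invariant distribution
`U` there is a tensor of positive weight, of any degree, which is not degenerate along `U`.

The proof: a finite family of such tensors on which all invariants of `SL n` vanish at the generic
point is destabilised by a weighted flag over the algebraic closure of `K` (Hilbert and Mumford; here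
by a valuation on the ring of functions on `SL n`), the optimal one is unique (Kempf), so it is
defined over `K` and invariant; its first member is `U` for the tensors of bounded degree.  By
Hilbert's basis theorem the first member for a large bound on the degree serves for all degrees.
-/

set_option autoImplicit false

open Module FF Pool.Agent.W602.GT Pool.Agent.Helper91.HM.Tw

namespace Pool.Agent.Results.MP_813db1_ag.TensorsOfAllDegrees

/-- **Tensors of all degrees degenerate along one invariant distribution.**  Let `(X, Δ)` be a pair
of dimension `n ≥ 1` with function field `K` and coefficients `δ P ≥ 0` such that `κ(X, Δ) < κ`.  Then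
there is a nonzero `K`-subspace `U` of the space of rational vector fields on `X` such that
(1) for all `N` and `a` with `N + n a > 0`, every orbifold tensor differential `s` on `(X, Δ)` of
degree `N` with values in `a (K_X + Δ)` and of Iitaka dimension at least `κ`, every basis `B` (used to
trivialize the canonical bundle) and all rational vector fields `x_1, ..., x_N` of which at least
`(1 - 1 / n) N` lie in `U`, the function `s (x_1, ..., x_N)` is zero;
(2) `U` is invariant under all automorphisms of the field `K` which preserve `(X, Δ)`. -/
theorem result {K : Type} [Field K] [Algebra ℂ K] [Algebra.EssFiniteType ℂ K] {n : ℕ}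
    (hn : Algebra.trdeg ℂ K = n) (hn0 : 0 < n) (X : Set (Place ℂ K)) (δ : Place ℂ K → ℝ)
    (hδ : ∀ P ∈ X, 0 ≤ δ P) (κ : ℕ) (hκ : ¬ KodairaGe n X δ κ) :
    ∃ U : Submodule K (Derivation ℂ K K), U ≠ ⊥ ∧
      (∀ (N : ℕ) (a : ℤ), 0 < (N : ℤ) + n * a → ∀ s : (Fin n → Derivation ℂ K K) →
        MultilinearMap K (fun _ : Fin N => Derivation ℂ K K) K, IsMovable n X δ κ a s →
        ∀ B : Fin n → Derivation ℂ K K, LinearIndependent K B → ∀ x : Fin N → Derivation ℂ K K,
          (n - 1) * N ≤ n * Nat.card {i : Fin N // x i ∈ U} → s B x = 0) ∧
      ∀ φ : K ≃+* K, Preserves X δ φ → ∀ D ∈ U, ∀ D' : Derivation ℂ K K,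
        (∀ f, D' (φ f) = φ (D f)) → D' ∈ U :=
  main hn hn0 X δ hδ κ hκ

end Pool.Agent.Results.MP_813db1_ag.TensorsOfAllDegrees
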